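import Mathlib

set_option autoImplicit false
open MeasureTheory Filter Topology Set Laplacian InnerProductSpace
open scoped ContDiff ENNReal

namespace Pool.Agent.W800.NS

/-- The plane. -/
abbrev Plane : Type := EuclideanSpace ℝ (Fin 2)

/-- `f(t) = e^{2t} p(e^t)`. -/
noncomputable def fOf (p : ℝ → ℝ) (t : ℝ) : ℝ := Real.exp (2 * t) * p (Real.exp t)

/-- `g(u) = q(e^u)`. -/
noncomputable def gOf (q : ℝ → ℝ) (u : ℝ) : ℝ := q (Real.exp u)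

/-- `F₁ = f'/f`. -/
noncomputable def F1 (p : ℝ → ℝ) (t : ℝ) : ℝ := deriv (fOf p) t / fOf p t

/-- `G₀(u) = ∫_{-∞}^u g`. -/
noncomputable def G0 (q : ℝ → ℝ) (u : ℝ) : ℝ := ∫ s in Iic u, gOf q s

/-- `G₁ = G₀/g`. -/
noncomputable def G1 (q : ℝ → ℝ) (u : ℝ) : ℝ := G0 q u / gOf q u

/-- The (nonnegative) integrand `f(t) g(-Mt)` has finite integral over `(0,∞)`. -/
def FinInt (p q : ℝ → ℝ) (M : ℝ) : Prop :=
  IntegrableOn (fun t => fOf p t * gOf q (-M * t)) (Ioi 0)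

/-- `M₀ = inf {M > 0 : ∫_0^∞ f(t) g(-Mt) dt < ∞}`. -/
noncomputable def M0 (p q : ℝ → ℝ) : ℝ := sInf {M : ℝ | 0 < M ∧ FinInt p q M}

/-- The hypotheses (H1)–(H8) on `p`, `q` (through `f = fOf p` and `g = gOf q`). -/
structure Hyp (p q : ℝ → ℝ) : Prop where
  H1f : ContDiff ℝ 1 (fOf p)
  H1g : ContDiff ℝ 1 (gOf q)
  H1int : IntegrableOn (fun t => |t * fOf p t|) (Iio 0)
  H1sup : ∃ C : ℝ, ∀ u, |gOf q u| + |deriv (gOf q) u| ≤ C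
  H2pos : ∀ t, 0 < fOf p t
  H2lim : Tendsto (fOf p) atTop atTop
  H2zero : gOf q 0 = 0
  H2gpos : ∀ u < 0, 0 < gOf q u
  H3 : ∀ t, 0 ≤ deriv (fOf p) t
  H4 : ∃ M > 0, (∀ u < -M, 0 < deriv (gOf q) u) ∧ FinInt p q M
  H5inf : ∫⁻ t in Ioi (0 : ℝ), ENNReal.ofReal (fOf p t * gOf q (-(M0 p q) * t)) = ⊤
  H5shift : ∀ c > 0, ∃ ε > 0, ∀ t > 0, ε ≤ fOf p (t - c) / fOf p t
  H6int : ∀ u, IntegrableOn (gOf q) (Iic u)
  H6H7 : ∃ f₁ g₁ : ℝ, Tendsto (F1 p) atTop (𝓝 f₁) ∧ Tendsto (G1 q) atBot (𝓝 g₁) ∧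
    (∀ t, f₁ ≤ F1 p t) ∧ ∀ u < 0, g₁ ≤ G1 q u
  H8 : ∃ δ > 0, ∀ u ∈ Icc (-δ) 0, deriv (gOf q) u ≤ 0

/-- The strict form of the second half of (H7): `G₁ > g₁` on `(-∞,0)`. -/
def StrictH7 (q : ℝ → ℝ) : Prop :=
  ∃ g₁ : ℝ, Tendsto (G1 q) atBot (𝓝 g₁) ∧ ∀ u < 0, g₁ < G1 q u

/-- `u` is a negative solution of `Δu + p(|x|) q(e^u) = 4πN δ` in the sense of distributions on
the plane, of class `C^n` away from the origin. -/
structure IsNegSol (n : WithTop ℕ∞) (N : ℝ) (p q : ℝ → ℝ) (u : Plane → ℝ) : Prop where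
  locInt : LocallyIntegrable u
  smooth : ContDiffOn ℝ n u {0}ᶜ
  locIntNonlin : LocallyIntegrable (fun x => p ‖x‖ * q (Real.exp (u x)))
  weak : ∀ φ : Plane → ℝ, ContDiff ℝ ∞ φ → HasCompactSupport φ →
    (∫ x, u x * Δ φ x) + ∫ x, p ‖x‖ * q (Real.exp (u x)) * φ x = 4 * Real.pi * N * φ 0
  neg : ∀ x, x ≠ 0 → u x < 0

/-- `u` (on the punctured plane) depends only on the distance to `c`. -/
def RadialAbout (c : Plane) (u : Plane → ℝ) : Prop :=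
  ∀ x y : Plane, x ≠ 0 → y ≠ 0 → ‖x - c‖ = ‖y - c‖ → u x = u y

/-- The power `p(r) = r^b`. -/
noncomputable def pw (b : ℝ) : ℝ → ℝ := fun r => r ^ b

/-- The nonlinearity of part (1): `q(s) = s` for `0 < s ≤ e⁻¹`,
`q(s) = s - (1 + log s)²` for `e⁻¹ ≤ s ≤ 1`, cut off smoothly for `1 ≤ s ≤ e`, `q(s) = 0` for
`s ≥ e`. -/
noncomputable def qL : ℝ → ℝ := fun s =>
  (s - (max 0 (Real.log s + 1)) ^ 2) * Real.smoothTransition (1 - Real.log s)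

/-- The nonlinearity `q(s) = s (1 - s)` for `0 < s ≤ 1`, cut off smoothly for `1 ≤ s ≤ e`. -/
noncomputable def qCS : ℝ → ℝ := fun s =>
  s * (1 - s) * Real.smoothTransition (1 - Real.log s)

end Pool.Agent.W800.NS
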