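import Pool.Agent.W800.NS.Defs

set_option autoImplicit false
open MeasureTheory Filter Topology Set
open scoped ContDiff ENNReal

namespace Pool.Agent.W800.NS

theorem fOf_pw (b t : ℝ) : fOf (pw b) t = Real.exp ((b + 2) * t) := by
  unfold fOf pw
  rw [← Real.exp_mul, ← Real.exp_add]
  congr 1
  ring

theorem fOf_pw_fun (b : ℝ) : fOf (pw b) = fun t => Real.exp ((b + 2) * t) :=
  funext (fOf_pw b)

theorem deriv_fOf_pw (b t : ℝ) : deriv (fOf (pw b)) t = (b + 2) * Real.exp ((b + 2) * t) := by
  rw [fOf_pw_fun]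
  have h : HasDerivAt (fun t : ℝ => (b + 2) * t) (b + 2) t := by
    simpa using (hasDerivAt_id t).const_mul (b + 2)
  rw [h.exp.deriv]
  ring

/-- lower bound for `G₀` by `g` when `g' ≤ g` -/
theorem le_G0 {q : ℝ → ℝ} (hC1 : ContDiff ℝ 1 (gOf q)) (hint : ∀ u, IntegrableOn (gOf q) (Iic u))
    (hlim : Tendsto (gOf q) atBot (𝓝 0)) {D : ℝ → ℝ}
    (hD : ∀ s, D s = gOf q s - deriv (gOf q) s) (hle : ∀ s ≤ 0, 0 ≤ D s) {u : ℝ} (hu : u ≤ 0) :
    gOf q u + ∫ s in (u - 1)..u, D s ≤ G0 q u := by
  have hg' : Continuous (deriv (gOf q)) := hC1.continuous_deriv (by norm_num)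
  have hDc : Continuous D := by
    have : D = fun s => gOf q s - deriv (gOf q) s := funext hD
    rw [this]; exact hC1.continuous.sub hg'
  have h1 : Tendsto (fun R => ∫ s in R..u, gOf q s) atBot (𝓝 (G0 q u)) :=
    intervalIntegral_tendsto_integral_Iic u (hint u) tendsto_id
  have h2 : Tendsto (fun R => gOf q u - gOf q R + ∫ s in (u - 1)..u, D s) atBot
      (𝓝 (gOf q u - 0 + ∫ s in (u - 1)..u, D s)) := (tendsto_const_nhds.sub hlim).add_const _
  rw [sub_zero] at h2
  refine le_of_tendsto_of_tendsto h2 h1 ?_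
  filter_upwards [eventually_le_atBot (u - 1)] with R hR
  have e1 : ∫ s in R..u, deriv (gOf q) s = gOf q u - gOf q R :=
    intervalIntegral.integral_deriv_eq_sub
      (fun x _ => hC1.differentiable (by norm_num) x) (hg'.intervalIntegrable _ _)
  have e2 : ∫ s in R..u, D s = (∫ s in R..u, gOf q s) - ∫ s in R..u, deriv (gOf q) s := by
    rw [← intervalIntegral.integral_sub (hC1.continuous.intervalIntegrable _ _)
      (hg'.intervalIntegrable _ _)]
    exact intervalIntegral.integral_congr fun s _ => hD s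
  have e3 : ∫ s in R..u, D s = (∫ s in R..(u - 1), D s) + ∫ s in (u - 1)..u, D s :=
    (intervalIntegral.integral_add_adjacent_intervals (hDc.intervalIntegrable _ _)
      (hDc.intervalIntegrable _ _)).symm
  have e4 : 0 ≤ ∫ s in R..(u - 1), D s := by
    refine intervalIntegral.integral_nonneg hR fun s hs => hle s ?_
    have := hs.2
    linarith
  linarith

theorem finInt_iff {a : ℝ} {q : ℝ → ℝ} (hgc : Continuous (gOf q))
    (h0 : gOf q 0 = 0) (hpos : ∀ u < 0, 0 < gOf q u) (hup : ∀ u ≤ 0, gOf q u ≤ Real.exp u)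
    (hlow : ∀ u ≤ -1, Real.exp u / 2 ≤ gOf q u) {M : ℝ} (hM : 0 < M) :
    FinInt (pw (a - 2)) q M ↔ a < M := by
  have hf : ∀ t, fOf (pw (a - 2)) t = Real.exp (a * t) := fun t => by
    rw [fOf_pw]; congr 1; ring
  have hcont : Continuous fun t => Real.exp (a * t) * gOf q (-M * t) := by fun_prop
  have hnn : ∀ u ≤ 0, 0 ≤ gOf q u := fun u hu => by
    rcases hu.eq_or_lt with h | h
    · rw [h, h0]
    · exact (hpos u h).le
  unfold FinInt
  simp only [hf]
  constructor
  · intro h
    by_contra hcon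
    rw [not_lt] at hcon
    -- the integrand is at least `1/2` for `t ≥ 1/M`
    have h1 : IntegrableOn (fun _ : ℝ => (1 / 2 : ℝ)) (Ioi (1 / M)) := by
      have h2 : IntegrableOn (fun t => Real.exp (a * t) * gOf q (-M * t)) (Ioi (1 / M)) :=
        h.mono_set (Ioi_subset_Ioi (by positivity))
      refine Integrable.mono' h2 (aestronglyMeasurable_const) ?_
      refine (ae_restrict_iff' measurableSet_Ioi).2 (Eventually.of_forall fun t ht => ?_)
      have ht' : 1 / M < t := ht
      have hMt : 1 < M * t := by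
        rw [div_lt_iff₀ hM] at ht'
        linarith
      have ht0 : 0 < t := lt_trans (by positivity) ht'
      have h3 := hlow (-M * t) (by linarith)
      have h4 : Real.exp (-M * t) * Real.exp (a * t) ≥ 1 := by
        rw [← Real.exp_add]
        apply Real.one_le_exp
        nlinarith
      have h5 : Real.exp (a * t) * (Real.exp (-M * t) / 2) ≤ Real.exp (a * t) * gOf q (-M * t) :=
        mul_le_mul_of_nonneg_left h3 (Real.exp_pos _).le
      rw [Real.norm_eq_abs, abs_of_pos (by norm_num : (0:ℝ) < 1 / 2)]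
      linarith
    have h6 := (integrableOn_const_iff (by simp : ‖(1 / 2 : ℝ)‖ₑ ≠ ⊤)).1 h1
    rcases h6 with h6 | h6
    · norm_num at h6
    · simp at h6
  · intro h
    have h1 : IntegrableOn (fun t : ℝ => Real.exp ((a - M) * t)) (Ioi 0) :=
      integrableOn_exp_mul_Ioi (by linarith) 0
    refine Integrable.mono' h1 hcont.aestronglyMeasurable ?_
    refine (ae_restrict_iff' measurableSet_Ioi).2 (Eventually.of_forall fun t ht => ?_)
    have ht0 : 0 < t := ht
    have h2 : -M * t ≤ 0 := by nlinarith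
    rw [Real.norm_eq_abs, abs_of_nonneg (mul_nonneg (Real.exp_pos _).le (hnn _ h2))]
    calc Real.exp (a * t) * gOf q (-M * t) ≤ Real.exp (a * t) * Real.exp (-M * t) :=
          mul_le_mul_of_nonneg_left (hup _ h2) (Real.exp_pos _).le
      _ = Real.exp ((a - M) * t) := by rw [← Real.exp_add]; congr 1; ring

theorem M0_eq {a : ℝ} (ha : 0 < a) {q : ℝ → ℝ} (hgc : Continuous (gOf q))
    (h0 : gOf q 0 = 0) (hpos : ∀ u < 0, 0 < gOf q u) (hup : ∀ u ≤ 0, gOf q u ≤ Real.exp u)
    (hlow : ∀ u ≤ -1, Real.exp u / 2 ≤ gOf q u) : M0 (pw (a - 2)) q = a := by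
  unfold M0
  have e : {M : ℝ | 0 < M ∧ FinInt (pw (a - 2)) q M} = Ioi a := by
    ext M
    constructor
    · rintro ⟨h1, h2⟩
      exact (finInt_iff hgc h0 hpos hup hlow h1).1 h2
    · intro h
      have h1 : 0 < M := ha.trans h
      exact ⟨h1, (finInt_iff hgc h0 hpos hup hlow h1).2 h⟩
  rw [e, csInf_Ioi]

theorem hyp_of {a : ℝ} (ha : 0 < a) {q : ℝ → ℝ} (hC1 : ContDiff ℝ 1 (gOf q))
    (hsup : ∃ C : ℝ, ∀ u, |gOf q u| + |deriv (gOf q) u| ≤ C)
    (h0 : gOf q 0 = 0) (hpos : ∀ u < 0, 0 < gOf q u) (hup : ∀ u ≤ 0, gOf q u ≤ Real.exp u)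
    (hlow : ∀ u ≤ -1, Real.exp u / 2 ≤ gOf q u) (hmono : ∀ u < -1, 0 < deriv (gOf q) u)
    (hle : ∀ s ≤ 0, deriv (gOf q) s ≤ gOf q s) (hG : Tendsto (G1 q) atBot (𝓝 1))
    (h8 : ∃ δ > 0, ∀ u ∈ Icc (-δ) 0, deriv (gOf q) u ≤ 0) : Hyp (pw (a - 2)) q := by
  have hgc := hC1.continuous
  have hnn : ∀ u ≤ 0, 0 ≤ gOf q u := fun u hu => by
    rcases hu.eq_or_lt with h | h
    · rw [h, h0]
    · exact (hpos u h).le
  have hf : ∀ t, fOf (pw (a - 2)) t = Real.exp (a * t) := fun t => by
    rw [fOf_pw]; congr 1; ring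
  have hff : fOf (pw (a - 2)) = fun t => Real.exp (a * t) := funext hf
  have hf' : ∀ t, deriv (fOf (pw (a - 2))) t = a * Real.exp (a * t) := fun t => by
    rw [deriv_fOf_pw]; congr 1 <;> [skip; congr 1] <;> ring
  have hint : ∀ u, IntegrableOn (gOf q) (Iic u) := by
    intro u
    have h1 : IntegrableOn (gOf q) (Iic 0) := by
      refine Integrable.mono' (integrableOn_exp_Iic 0) hgc.aestronglyMeasurable ?_
      refine (ae_restrict_iff' measurableSet_Iic).2 (Eventually.of_forall fun t ht => ?_)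
      rw [Real.norm_eq_abs, abs_of_nonneg (hnn t ht)]
      exact hup t ht
    have h2 : IntegrableOn (gOf q) (Icc 0 u) := hgc.continuousOn.integrableOn_Icc
    refine (h1.union h2).mono_set ?_
    intro x hx
    rcases le_total x 0 with h | h
    · exact Or.inl h
    · exact Or.inr ⟨h, hx⟩
  have hlim : Tendsto (gOf q) atBot (𝓝 0) := by
    refine squeeze_zero' ?_ ?_ Real.tendsto_exp_atBot
    · filter_upwards [eventually_le_atBot (0:ℝ)] with u hu using hnn u hu
    · filter_upwards [eventually_le_atBot (0:ℝ)] with u hu using hup u hu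
  constructor
  · rw [hff]
    exact (contDiff_const.mul contDiff_id).exp
  · exact hC1
  · simp only [hf]
    have h1 : IntegrableOn (fun t : ℝ => (2 / a) * Real.exp ((a / 2) * t)) (Iio 0) :=
      ((integrableOn_exp_mul_Iic (by positivity : 0 < a / 2) 0).mono_set Iio_subset_Iic_self).const_mul _
    refine Integrable.mono' h1 (by fun_prop) ?_
    refine (ae_restrict_iff' measurableSet_Iio).2 (Eventually.of_forall fun t ht => ?_)
    have ht0 : t < 0 := ht
    rw [Real.norm_eq_abs, abs_abs, abs_mul, abs_of_neg ht0, abs_of_pos (Real.exp_pos _)]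
    have h2 : -(a / 2 * t) + 1 ≤ Real.exp (-(a / 2 * t)) := Real.add_one_le_exp _
    have h3 : -t ≤ (2 / a) * Real.exp (-(a / 2 * t)) := by
      have : -t = (2 / a) * (-(a / 2 * t)) := by field_simp
      rw [this]
      exact mul_le_mul_of_nonneg_left (by linarith) (by positivity)
    calc -t * Real.exp (a * t) ≤ ((2 / a) * Real.exp (-(a / 2 * t))) * Real.exp (a * t) :=
          mul_le_mul_of_nonneg_right h3 (Real.exp_pos _).le
      _ = (2 / a) * Real.exp ((a / 2) * t) := by
          rw [mul_assoc, ← Real.exp_add]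
          congr 2
          ring
  · exact hsup
  · intro t; rw [hf]; exact Real.exp_pos _
  · rw [hff]
    exact Real.tendsto_exp_atTop.comp (tendsto_id.const_mul_atTop ha)
  · exact h0
  · exact hpos
  · intro t; rw [hf']; positivity
  · refine ⟨max (a + 1) 1, by positivity, fun u hu => hmono u ?_, ?_⟩
    · have := le_max_right (a + 1) 1
      linarith
    · refine (finInt_iff hgc h0 hpos hup hlow (by positivity)).2 ?_
      have := le_max_left (a + 1) 1
      linarith
  · rw [M0_eq ha hgc h0 hpos hup hlow]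
    by_contra hcon
    have h1 : FinInt (pw (a - 2)) q a := by
      unfold FinInt
      have hcont : Continuous fun t => fOf (pw (a - 2)) t * gOf q (-a * t) := by
        rw [hff]; fun_prop
      refine ⟨hcont.aestronglyMeasurable, ?_⟩
      rw [hasFiniteIntegral_iff_ofReal]
      · exact lt_top_iff_ne_top.2 hcon
      · refine (ae_restrict_iff' measurableSet_Ioi).2 (Eventually.of_forall fun t ht => ?_)
        have ht0 : (0:ℝ) < t := ht
        have h2 : -a * t ≤ 0 := by nlinarith
        show (0 : ℝ) ≤ fOf (pw (a - 2)) t * gOf q (-a * t)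
        rw [hf]
        exact mul_nonneg (Real.exp_pos _).le (hnn _ h2)
    exact lt_irrefl _ ((finInt_iff hgc h0 hpos hup hlow ha).1 h1)
  · intro c hc
    refine ⟨Real.exp (-(a * c)), Real.exp_pos _, fun t _ => ?_⟩
    rw [hf, hf, ← Real.exp_sub]
    apply le_of_eq
    congr 1
    ring
  · exact hint
  · refine ⟨a, 1, ?_, hG, ?_, ?_⟩
    · have : F1 (pw (a - 2)) = fun _ => a := by
        funext t
        unfold F1
        rw [hf', hf]
        field_simp
      rw [this]
      exact tendsto_const_nhds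
    · intro t
      unfold F1
      rw [hf', hf]
      apply le_of_eq
      field_simp
    · intro u hu
      unfold G1
      rw [le_div_iff₀ (hpos u hu), one_mul]
      have h1 := le_G0 hC1 hint hlim (D := fun s => gOf q s - deriv (gOf q) s) (fun _ => rfl)
        (fun s hs => sub_nonneg.2 (hle s hs)) hu.le
      have h2 : 0 ≤ ∫ s in (u - 1)..u, (gOf q s - deriv (gOf q) s) :=
        intervalIntegral.integral_nonneg (by linarith) fun s hs =>
          sub_nonneg.2 (hle s (hs.2.trans hu.le))
      linarith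
  · exact h8

end Pool.Agent.W800.NS
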