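import Pool.Agent.W800.NS.HypLem

set_option autoImplicit false
open MeasureTheory Filter Topology Set
open scoped ContDiff ENNReal

namespace Pool.Agent.W800.NS

theorem gOf_qL (u : ℝ) : gOf qL u =
    (Real.exp u - (max 0 (u + 1)) ^ 2) * Real.smoothTransition (1 - u) := by
  unfold gOf qL
  rw [Real.log_exp]

theorem gOf_qCS (u : ℝ) : gOf qCS u =
    (Real.exp u * (1 - Real.exp u)) * Real.smoothTransition (1 - u) := by
  unfold gOf qCS
  rw [Real.log_exp]

theorem hasDerivAt_posSq (t : ℝ) : HasDerivAt (fun t : ℝ => (max 0 t) ^ 2) (2 * max 0 t) t := by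
  rcases lt_trichotomy t 0 with h | h | h
  · have e : (fun t : ℝ => (max 0 t) ^ 2) =ᶠ[𝓝 t] fun _ => 0 := by
      filter_upwards [Iio_mem_nhds h] with s hs
      have hs' : s < 0 := hs
      rw [max_eq_left hs'.le]; norm_num
    rw [max_eq_left h.le, mul_zero]
    exact (hasDerivAt_const t (0:ℝ)).congr_of_eventuallyEq e
  · subst h
    rw [max_self, mul_zero, hasDerivAt_iff_isLittleO]
    simp only [sub_zero, max_self, ne_eq, OfNat.ofNat_ne_zero, not_false_eq_true, zero_pow,
      smul_zero]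
    have h1 : (fun x : ℝ => (max 0 x) ^ 2) =O[𝓝 0] fun x : ℝ => x ^ 2 := by
      refine Asymptotics.isBigO_of_le _ fun x => ?_
      rw [Real.norm_eq_abs, Real.norm_eq_abs, abs_pow, abs_pow]
      have h0 : |max 0 x| ≤ |x| := by
        rcases le_total 0 x with h | h
        · rw [max_eq_right h]
        · rw [max_eq_left h, abs_zero]; exact abs_nonneg _
      gcongr
    refine h1.trans_isLittleO ?_
    have := Asymptotics.isLittleO_pow_id (𝕜 := ℝ) (n := 2) (by norm_num)
    simpa using this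
  · have e : (fun t : ℝ => (max 0 t) ^ 2) =ᶠ[𝓝 t] fun s => s ^ 2 := by
      filter_upwards [Ioi_mem_nhds h] with s hs
      have hs' : 0 < s := hs
      rw [max_eq_right hs'.le]
    rw [max_eq_right h.le]
    have := (hasDerivAt_pow 2 t).congr_of_eventuallyEq e
    simpa using this

theorem contDiff_posSq : ContDiff ℝ 1 (fun t : ℝ => (max 0 t) ^ 2) := by
  rw [contDiff_one_iff_deriv]
  refine ⟨fun t => (hasDerivAt_posSq t).differentiableAt, ?_⟩
  have : deriv (fun t : ℝ => (max 0 t) ^ 2) = fun t => 2 * max 0 t :=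
    funext fun t => (hasDerivAt_posSq t).deriv
  rw [this]
  fun_prop

/-- general cutoff lemma -/
theorem cutoff_bound {b : ℝ → ℝ} (hb : ContDiff ℝ 1 b) {C : ℝ}
    (hC : ∀ u ≤ 0, |b u| + |deriv b u| ≤ C) :
    let g := fun u => b u * Real.smoothTransition (1 - u)
    ContDiff ℝ 1 g ∧ (∀ u ≤ 0, g u = b u) ∧ (∀ u ≤ 0, deriv g u = deriv b u) ∧
      ∃ C' : ℝ, ∀ u, |g u| + |deriv g u| ≤ C' := by
  intro g
  have hst : ContDiff ℝ 1 fun u : ℝ => Real.smoothTransition (1 - u) :=
    (Real.smoothTransition.contDiff (n := 1)).comp (contDiff_const.sub contDiff_id)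
  have hg : ContDiff ℝ 1 g := hb.mul hst
  have e1 : ∀ u ≤ 0, g u = b u := by
    intro u hu
    simp only [g]
    rw [Real.smoothTransition.one_of_one_le (by linarith), mul_one]
  have hd : ∀ u, HasDerivAt g (deriv g u) u := fun u => (hg.differentiable (by norm_num) u).hasDerivAt
  have e2 : ∀ u ≤ 0, deriv g u = deriv b u := by
    intro u hu
    have h1 : HasDerivWithinAt g (deriv b u) (Iic 0) u :=
      ((hb.differentiable (by norm_num) u).hasDerivAt.hasDerivWithinAt).congr (fun y hy => e1 y hy)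
        (e1 u hu)
    exact UniqueDiffWithinAt.eq_deriv _ (uniqueDiffOn_Iic (0:ℝ) u hu) (hd u).hasDerivWithinAt h1
  have e3 : ∀ u, 1 ≤ u → g u = 0 := by
    intro u hu
    simp only [g]
    rw [Real.smoothTransition.zero_of_nonpos (by linarith), mul_zero]
  have e4 : ∀ u, 1 ≤ u → deriv g u = 0 := by
    intro u hu
    have h1 : HasDerivWithinAt g 0 (Ici 1) u :=
      ((hasDerivAt_const u (0:ℝ)).hasDerivWithinAt).congr (fun y hy => e3 y hy) (e3 u hu)
    exact UniqueDiffWithinAt.eq_deriv _ (uniqueDiffOn_Ici (1:ℝ) u hu) (hd u).hasDerivWithinAt h1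
  refine ⟨hg, e1, e2, ?_⟩
  have hcont : Continuous fun u => |g u| + |deriv g u| :=
    hg.continuous.abs.add (hg.continuous_deriv (by norm_num)).abs
  obtain ⟨B, hB⟩ := (isCompact_Icc (a := (0:ℝ)) (b := 1)).exists_bound_of_continuousOn hcont.continuousOn
  refine ⟨max C (max B 0), fun u => ?_⟩
  rcases le_total u 0 with h | h
  · rw [e1 u h, e2 u h]
    exact (hC u h).trans (le_max_left _ _)
  · rcases le_total u 1 with h' | h'
    · have := hB u ⟨h, h'⟩
      rw [Real.norm_eq_abs] at this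
      exact (le_abs_self _).trans (this.trans ((le_max_left _ _).trans (le_max_right _ _)))
    · rw [e3 u h', e4 u h']
      simp

/-! ### The nonlinearity `qL` -/

noncomputable def bL (u : ℝ) : ℝ := Real.exp u - (max 0 (u + 1)) ^ 2

theorem hasDerivAt_bL (u : ℝ) : HasDerivAt bL (Real.exp u - 2 * max 0 (u + 1)) u := by
  have h1 : HasDerivAt (fun u : ℝ => u + 1) 1 u := (hasDerivAt_id u).add_const 1
  have h2 := (hasDerivAt_posSq (u + 1)).comp u h1
  have h3 := (Real.hasDerivAt_exp u).sub h2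
  refine h3.congr_deriv ?_
  ring

theorem deriv_bL (u : ℝ) : deriv bL u = Real.exp u - 2 * max 0 (u + 1) := (hasDerivAt_bL u).deriv

theorem contDiff_bL : ContDiff ℝ 1 bL :=
  Real.contDiff_exp.sub (contDiff_posSq.comp (contDiff_id.add contDiff_const))

theorem bL_spec : ContDiff ℝ 1 (gOf qL) ∧ (∀ u ≤ 0, gOf qL u = bL u) ∧
    (∀ u ≤ 0, deriv (gOf qL) u = deriv bL u) ∧ ∃ C' : ℝ, ∀ u, |gOf qL u| + |deriv (gOf qL) u| ≤ C' := by
  have h := cutoff_bound contDiff_bL (C := 5) (by
    intro u hu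
    rw [deriv_bL]
    have h1 : Real.exp u ≤ 1 := Real.exp_le_one_iff.2 hu
    have h2 := Real.exp_pos u
    have h3 : 0 ≤ max 0 (u + 1) := le_max_left _ _
    have h4 : max 0 (u + 1) ≤ 1 := max_le (by norm_num) (by linarith)
    have h5 : |bL u| ≤ 2 := by
      unfold bL
      rw [abs_le]
      constructor <;> nlinarith
    have h6 : |Real.exp u - 2 * max 0 (u + 1)| ≤ 3 := by
      rw [abs_le]
      constructor <;> nlinarith
    linarith)
  have e : gOf qL = fun u => bL u * Real.smoothTransition (1 - u) := funext gOf_qL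
  rw [e]
  exact h

theorem gL_exp {u : ℝ} (hu : u ≤ -1) : gOf qL u = Real.exp u := by
  rw [bL_spec.2.1 u (by linarith)]
  unfold bL
  rw [max_eq_left (by linarith)]
  ring

theorem hyp_qL {a : ℝ} (ha : 0 < a) : Hyp (pw (a - 2)) qL := by
  obtain ⟨h1, h2, h3, h4⟩ := bL_spec
  refine hyp_of ha h1 h4 ?_ ?_ ?_ ?_ ?_ ?_ ?_ ?_
  · rw [h2 0 le_rfl]
    unfold bL
    norm_num
  · intro u hu
    rw [h2 u hu.le]
    unfold bL
    have h5 : u + 1 < Real.exp u := Real.add_one_lt_exp hu.ne
    rcases le_total (u + 1) 0 with h | h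
    · rw [max_eq_left h]
      have := Real.exp_pos u
      linarith
    · rw [max_eq_right h]
      nlinarith
  · intro u hu
    rw [h2 u hu]
    unfold bL
    have := sq_nonneg (max 0 (u + 1))
    linarith
  · intro u hu
    rw [gL_exp hu]
    have := Real.exp_pos u
    linarith
  · intro u hu
    rw [h3 u (by linarith), deriv_bL, max_eq_left (by linarith)]
    have := Real.exp_pos u
    linarith
  · intro u hu
    rw [h3 u hu, h2 u hu, deriv_bL]
    unfold bL
    have h3 : 0 ≤ max 0 (u + 1) := le_max_left _ _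
    have h4 : max 0 (u + 1) ≤ 1 := max_le (by norm_num) (by linarith)
    nlinarith
  · have : ∀ᶠ u in atBot, G1 qL u = 1 := by
      filter_upwards [eventually_le_atBot (-1 : ℝ)] with u hu
      unfold G1 G0
      have e : ∫ s in Iic u, gOf qL s = ∫ s in Iic u, Real.exp s := by
        refine setIntegral_congr_fun measurableSet_Iic fun s hs => ?_
        exact gL_exp (le_trans hs hu)
      rw [e, integral_exp_Iic, gL_exp hu]
      exact div_self (Real.exp_pos u).ne'
    exact tendsto_const_nhds.congr' (this.mono fun _ h => h.symm)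
  · refine ⟨1 / 2, by norm_num, fun u hu => ?_⟩
    rw [h3 u hu.2, deriv_bL, max_eq_right (by linarith [hu.1])]
    have h5 : Real.exp u ≤ 1 := Real.exp_le_one_iff.2 hu.2
    have := hu.1
    linarith

/-! ### The nonlinearity `qCS` -/

noncomputable def bCS (u : ℝ) : ℝ := Real.exp u * (1 - Real.exp u)

theorem hasDerivAt_bCS (u : ℝ) : HasDerivAt bCS (Real.exp u * (1 - 2 * Real.exp u)) u := by
  have h3 := (Real.hasDerivAt_exp u).mul ((Real.hasDerivAt_exp u).const_sub 1)
  refine h3.congr_deriv ?_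
  ring

theorem deriv_bCS (u : ℝ) : deriv bCS u = Real.exp u * (1 - 2 * Real.exp u) := (hasDerivAt_bCS u).deriv

theorem contDiff_bCS {n : WithTop ℕ∞} : ContDiff ℝ n bCS :=
  Real.contDiff_exp.mul (contDiff_const.sub Real.contDiff_exp)

theorem contDiff_gCS : ContDiff ℝ ∞ (gOf qCS) := by
  have e : gOf qCS = fun u => bCS u * Real.smoothTransition (1 - u) := funext gOf_qCS
  rw [e]
  exact contDiff_bCS.mul
    ((Real.smoothTransition.contDiff (n := ⊤)).comp (contDiff_const.sub contDiff_id))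

theorem bCS_spec : ContDiff ℝ 1 (gOf qCS) ∧ (∀ u ≤ 0, gOf qCS u = bCS u) ∧
    (∀ u ≤ 0, deriv (gOf qCS) u = deriv bCS u) ∧
      ∃ C' : ℝ, ∀ u, |gOf qCS u| + |deriv (gOf qCS) u| ≤ C' := by
  have h := cutoff_bound contDiff_bCS (C := 5) (by
    intro u hu
    rw [deriv_bCS]
    have h1 : Real.exp u ≤ 1 := Real.exp_le_one_iff.2 hu
    have h2 := Real.exp_pos u
    have h5 : |bCS u| ≤ 2 := by
      unfold bCS
      rw [abs_le]
      constructor <;> nlinarith
    have h6 : |Real.exp u * (1 - 2 * Real.exp u)| ≤ 3 := by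
      rw [abs_le]
      constructor <;> nlinarith
    linarith)
  have e : gOf qCS = fun u => bCS u * Real.smoothTransition (1 - u) := funext gOf_qCS
  rw [e]
  exact h

theorem G0_CS {u : ℝ} (hu : u ≤ 0) : G0 qCS u = Real.exp u - Real.exp (2 * u) / 2 := by
  unfold G0
  have e : ∫ s in Iic u, gOf qCS s = ∫ s in Iic u, (Real.exp s - Real.exp (2 * s)) := by
    refine setIntegral_congr_fun measurableSet_Iic fun s hs => ?_
    show gOf qCS s = Real.exp s - Real.exp (2 * s)
    rw [bCS_spec.2.1 s (le_trans hs hu)]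
    unfold bCS
    rw [two_mul, Real.exp_add]
    ring
  rw [e, integral_sub (integrableOn_exp_Iic u) (integrableOn_exp_mul_Iic (by norm_num) u),
    integral_exp_Iic, integral_exp_mul_Iic (by norm_num)]

theorem G1_CS {u : ℝ} (hu : u < 0) : G1 qCS u = (1 - Real.exp u / 2) / (1 - Real.exp u) := by
  have h1 : Real.exp u < 1 := Real.exp_lt_one_iff.2 hu
  have h2 := Real.exp_pos u
  have h3 : 1 - Real.exp u ≠ 0 := by linarith
  unfold G1
  rw [G0_CS hu.le, bCS_spec.2.1 u hu.le]
  unfold bCS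
  rw [two_mul, Real.exp_add, div_eq_div_iff (by positivity) h3]
  ring

theorem tendsto_G1_CS : Tendsto (G1 qCS) atBot (𝓝 1) := by
  have h1 : Tendsto (fun u : ℝ => (1 - Real.exp u / 2) / (1 - Real.exp u)) atBot
      (𝓝 ((1 - 0 / 2) / (1 - 0))) :=
    ((Real.tendsto_exp_atBot.div_const 2).const_sub 1).div (Real.tendsto_exp_atBot.const_sub 1)
      (by norm_num)
  have e : ((1 - 0 / 2) / (1 - 0) : ℝ) = 1 := by norm_num
  rw [e] at h1
  refine h1.congr' ?_
  filter_upwards [eventually_lt_atBot (0:ℝ)] with u hu using (G1_CS hu).symm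

theorem strict_CS : StrictH7 qCS := by
  refine ⟨1, tendsto_G1_CS, fun u hu => ?_⟩
  have h1 : Real.exp u < 1 := Real.exp_lt_one_iff.2 hu
  have h2 := Real.exp_pos u
  rw [G1_CS hu, lt_div_iff₀ (by linarith)]
  linarith

theorem hyp_qCS {a : ℝ} (ha : 0 < a) : Hyp (pw (a - 2)) qCS := by
  obtain ⟨h1, h2, h3, h4⟩ := bCS_spec
  refine hyp_of ha h1 h4 ?_ ?_ ?_ ?_ ?_ ?_ tendsto_G1_CS ?_
  · rw [h2 0 le_rfl]
    unfold bCS
    norm_num
  · intro u hu
    rw [h2 u hu.le]
    have h1 : Real.exp u < 1 := Real.exp_lt_one_iff.2 hu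
    have h2 := Real.exp_pos u
    unfold bCS
    nlinarith
  · intro u hu
    rw [h2 u hu]
    have h2 := Real.exp_pos u
    unfold bCS
    nlinarith
  · intro u hu
    rw [h2 u (by linarith)]
    have h5 : Real.exp u ≤ Real.exp (-1) := Real.exp_le_exp.2 hu
    have h6 : Real.exp (-1) < 1 / 2 := by
      rw [Real.exp_neg, inv_lt_comm₀ (Real.exp_pos 1) (by norm_num)]
      have := Real.exp_one_gt_d9
      norm_num
      linarith
    have h2 := Real.exp_pos u
    unfold bCS
    nlinarith
  · intro u hu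
    rw [h3 u (by linarith), deriv_bCS]
    have h5 : Real.exp u ≤ Real.exp (-1) := Real.exp_le_exp.2 hu.le
    have h6 : Real.exp (-1) < 1 / 2 := by
      rw [Real.exp_neg, inv_lt_comm₀ (Real.exp_pos 1) (by norm_num)]
      have := Real.exp_one_gt_d9
      norm_num
      linarith
    have h2 := Real.exp_pos u
    nlinarith
  · intro u hu
    rw [h3 u hu, h2 u hu, deriv_bCS]
    have h2 := Real.exp_pos u
    unfold bCS
    nlinarith
  · refine ⟨1 / 2, by norm_num, fun u hu => ?_⟩
    rw [h3 u hu.2, deriv_bCS]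
    have h2 := Real.exp_pos u
    have h5 : 1 / 2 ≤ Real.exp u := by
      have := Real.add_one_le_exp u
      linarith [hu.1]
    nlinarith

end Pool.Agent.W800.NS
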