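import Mathlib

set_option autoImplicit false
open MeasureTheory Filter Topology Set Metric
open scoped ContDiff BoundedContinuousFunction

namespace Pool.Agent.W800.NS

/-- weighted averages along the segment `[0,σ]` -/
noncomputable def Aj (j : ℕ) (G : ℝ → ℝ) (σ : ℝ) : ℝ := ∫ θ in (0 : ℝ)..1, θ ^ j * G (θ * σ)

theorem continuous_Aj (j : ℕ) {G : ℝ → ℝ} (hG : Continuous G) : Continuous (Aj j G) := by
  unfold Aj
  apply intervalIntegral.continuous_parametric_intervalIntegral_of_continuous'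
  simp only [Function.uncurry_def]
  fun_prop

theorem hasDerivAt_Aj (j : ℕ) {G : ℝ → ℝ} (hG : ContDiff ℝ 1 G) (σ : ℝ) :
    HasDerivAt (Aj j G) (Aj (j + 1) (deriv G) σ) σ := by
  have hG' : Continuous (deriv G) := hG.continuous_deriv (by norm_num)
  have hGc : Continuous G := hG.continuous
  obtain ⟨B, hB⟩ := (isCompact_Icc (a := -(|σ| + 1)) (b := |σ| + 1)).exists_bound_of_continuousOn
    hG'.continuousOn
  refine (intervalIntegral.hasDerivAt_integral_of_dominated_loc_of_deriv_le
    (F := fun σ θ => θ ^ j * G (θ * σ)) (F' := fun σ θ => θ ^ (j + 1) * deriv G (θ * σ))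
    (bound := fun _ => B) (s := Metric.ball σ 1) (Metric.ball_mem_nhds σ one_pos) ?_ ?_ ?_ ?_ ?_ ?_).2
  · exact Eventually.of_forall fun x => (by fun_prop : Continuous fun θ : ℝ => θ ^ j * G (θ * x)).aestronglyMeasurable
  · exact (by fun_prop : Continuous fun θ : ℝ => θ ^ j * G (θ * σ)).intervalIntegrable _ _
  · exact (by fun_prop : Continuous fun θ : ℝ => θ ^ (j + 1) * deriv G (θ * σ)).aestronglyMeasurable
  · refine Eventually.of_forall fun θ hθ x hx => ?_
    rw [uIoc_of_le zero_le_one] at hθ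
    have hx' : |x| ≤ |σ| + 1 := by
      have h1 : |x - σ| < 1 := by simpa [Real.dist_eq] using hx
      have h2 : |x| ≤ |x - σ| + |σ| := by
        have := abs_add_le (x - σ) σ
        simpa using this
      linarith
    have hm : θ * x ∈ Icc (-(|σ| + 1)) (|σ| + 1) := by
      rw [mem_Icc, ← abs_le, abs_mul, abs_of_pos hθ.1]
      calc θ * |x| ≤ 1 * |x| := mul_le_mul_of_nonneg_right hθ.2 (abs_nonneg _)
        _ ≤ |σ| + 1 := by linarith
    have h3 := hB _ hm
    have h4 : (0 : ℝ) ≤ B := (norm_nonneg _).trans h3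
    rw [norm_mul, norm_pow, Real.norm_eq_abs, abs_of_pos hθ.1]
    calc θ ^ (j + 1) * ‖deriv G (θ * x)‖ ≤ 1 * B :=
          mul_le_mul (pow_le_one₀ hθ.1.le hθ.2) h3 (norm_nonneg _) zero_le_one
      _ = B := one_mul B
  · exact intervalIntegrable_const
  · refine Eventually.of_forall fun θ _ x _ => ?_
    have h1 : HasDerivAt G (deriv G (θ * x)) (θ * x) :=
      (hG.differentiable (by norm_num) _).hasDerivAt
    have h2 : HasDerivAt (fun x => θ * x) θ x := by
      simpa using (hasDerivAt_id x).const_mul θ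
    have h3 := (h1.comp x h2).const_mul (θ ^ j)
    refine h3.congr_deriv ?_
    ring

theorem contDiff_Aj (n : ℕ) : ∀ (j : ℕ) (G : ℝ → ℝ), ContDiff ℝ n G → ContDiff ℝ n (Aj j G) := by
  induction n with
  | zero =>
    intro j G hG
    simp only [Nat.cast_zero, contDiff_zero] at hG ⊢
    exact continuous_Aj j hG
  | succ n ih =>
    intro j G hG
    have hG1 : ContDiff ℝ 1 G := hG.of_le (by
      push_cast
      exact le_add_self)
    have hd : ∀ σ, HasDerivAt (Aj j G) (Aj (j + 1) (deriv G) σ) σ := hasDerivAt_Aj j hG1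
    have e : deriv (Aj j G) = Aj (j + 1) (deriv G) := funext fun σ => (hd σ).deriv
    push_cast at hG ⊢
    rw [contDiff_succ_iff_deriv] at hG ⊢
    refine ⟨fun σ => (hd σ).differentiableAt, by simp, ?_⟩
    rw [e]
    exact ih (j + 1) (deriv G) hG.2.2

/-- Existence for the singular ODE `(ρ V')' = -c g(V)` in integrated form. -/
theorem ode_exists {g : ℝ → ℝ} (hg : Continuous g) {C L c : ℝ} (hC : ∀ u, |g u| ≤ C)
    (hL : ∀ u v, |g u - g v| ≤ L * |u - v|) (hc : 0 ≤ c) (m : ℝ) :
    ∃ V : ℝ → ℝ, V 0 = m ∧ Continuous V ∧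
      ∀ ρ, V ρ = m - c * ∫ σ in (0 : ℝ)..ρ, Aj 0 (fun τ => g (V τ)) σ := by
  have hL0 : 0 ≤ L := by
    have := (abs_nonneg _).trans (hL 1 0)
    simpa using this
  have hC0 : 0 ≤ C := (abs_nonneg _).trans (hC 0)
  set K : ℝ := 2 * (c * L) + 1 with hK
  have hK0 : 0 < K := by positivity
  -- the reconstructed function
  let VV : (ℝ →ᵇ ℝ) → ℝ → ℝ := fun Z ρ => Real.exp (K * |ρ|) * Z ρ
  have hVV : ∀ Z, Continuous (VV Z) := fun Z => by
    have := Z.continuous
    simp only [VV]; fun_prop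
  have hA : ∀ Z : ℝ →ᵇ ℝ, Continuous (Aj 0 (fun τ => g (VV Z τ))) := fun Z =>
    continuous_Aj 0 (hg.comp (hVV Z))
  have hAb : ∀ (Z : ℝ →ᵇ ℝ) σ, |Aj 0 (fun τ => g (VV Z τ)) σ| ≤ C := by
    intro Z σ
    unfold Aj
    have := intervalIntegral.norm_integral_le_of_norm_le_const (a := (0:ℝ)) (b := 1) (C := C)
      (f := fun θ => θ ^ 0 * g (VV Z (θ * σ))) (by
        intro θ _
        simpa using hC _)
    simpa using this
  let TT : (ℝ →ᵇ ℝ) → ℝ → ℝ := fun Z ρ =>
    Real.exp (-(K * |ρ|)) * (m - c * ∫ σ in (0 : ℝ)..ρ, Aj 0 (fun τ => g (VV Z τ)) σ)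
  have hTc : ∀ Z, Continuous (TT Z) := by
    intro Z
    have h1 : Continuous fun ρ : ℝ => ∫ σ in (0 : ℝ)..ρ, Aj 0 (fun τ => g (VV Z τ)) σ :=
      intervalIntegral.continuous_primitive (fun a b => (hA Z).intervalIntegrable a b) 0
    simp only [TT]
    fun_prop
  have hexp : ∀ ρ : ℝ, |ρ| * Real.exp (-(K * |ρ|)) ≤ 1 / K := by
    intro ρ
    have h1 : K * |ρ| + 1 ≤ Real.exp (K * |ρ|) := Real.add_one_le_exp _
    rw [Real.exp_neg, ← div_eq_mul_inv, div_le_div_iff₀ (Real.exp_pos _) hK0]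
    nlinarith [abs_nonneg ρ]
  have hexp1 : ∀ ρ : ℝ, Real.exp (-(K * |ρ|)) ≤ 1 := by
    intro ρ
    rw [Real.exp_le_one_iff]
    have := mul_nonneg hK0.le (abs_nonneg ρ)
    linarith
  have hTb : ∀ Z, ∀ ρ, ‖TT Z ρ‖ ≤ |m| + c * C / K := by
    intro Z ρ
    have h1 : |∫ σ in (0 : ℝ)..ρ, Aj 0 (fun τ => g (VV Z τ)) σ| ≤ C * |ρ| := by
      have := intervalIntegral.norm_integral_le_of_norm_le_const (a := (0:ℝ)) (b := ρ) (C := C)
        (f := Aj 0 (fun τ => g (VV Z τ))) (fun θ _ => hAb Z θ)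
      simpa using this
    have h2 : |m - c * ∫ σ in (0 : ℝ)..ρ, Aj 0 (fun τ => g (VV Z τ)) σ| ≤ |m| + c * (C * |ρ|) := by
      refine (abs_sub _ _).trans ?_
      rw [abs_mul, abs_of_nonneg hc]
      gcongr
    simp only [TT]
    rw [Real.norm_eq_abs, abs_mul, abs_of_pos (Real.exp_pos _)]
    calc Real.exp (-(K * |ρ|)) * |m - c * ∫ σ in (0 : ℝ)..ρ, Aj 0 (fun τ => g (VV Z τ)) σ|
        ≤ Real.exp (-(K * |ρ|)) * (|m| + c * (C * |ρ|)) :=
          mul_le_mul_of_nonneg_left h2 (Real.exp_pos _).le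
      _ = Real.exp (-(K * |ρ|)) * |m| + c * C * (|ρ| * Real.exp (-(K * |ρ|))) := by ring
      _ ≤ 1 * |m| + c * C * (1 / K) := by
          gcongr
          · exact hexp1 ρ
          · exact hexp ρ
      _ = |m| + c * C / K := by ring
  let T : (ℝ →ᵇ ℝ) → (ℝ →ᵇ ℝ) := fun Z =>
    BoundedContinuousFunction.ofNormedAddCommGroup (TT Z) (hTc Z) _ (hTb Z)
  have hTcon : ContractingWith (1 / 2) T := by
    refine ⟨by
      rw [← NNReal.coe_lt_coe]
      norm_num, ?_⟩
    refine LipschitzWith.of_dist_le_mul fun Z W => ?_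
    rw [BoundedContinuousFunction.dist_le (by positivity)]
    intro ρ
    have e0 : ∀ Z, (T Z) ρ = TT Z ρ := fun Z => rfl
    rw [e0, e0, Real.dist_eq]
    set D : ℝ := dist Z W with hD
    have hD0 : 0 ≤ D := dist_nonneg
    have hpt : ∀ τ, |g (VV Z τ) - g (VV W τ)| ≤ L * (Real.exp (K * |τ|) * D) := by
      intro τ
      refine (hL _ _).trans (mul_le_mul_of_nonneg_left ?_ hL0)
      simp only [VV]
      rw [← mul_sub, abs_mul, abs_of_pos (Real.exp_pos _)]
      refine mul_le_mul_of_nonneg_left ?_ (Real.exp_pos _).le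
      have := BoundedContinuousFunction.dist_coe_le_dist (f := Z) (g := W) τ
      rwa [Real.dist_eq] at this
    have hAd : ∀ σ, |Aj 0 (fun τ => g (VV Z τ)) σ - Aj 0 (fun τ => g (VV W τ)) σ| ≤
        L * (Real.exp (K * |σ|) * D) := by
      intro σ
      unfold Aj
      have i1 : IntervalIntegrable (fun θ : ℝ => θ ^ 0 * g (VV Z (θ * σ))) volume 0 1 := by
        have h := hVV Z
        exact (by fun_prop : Continuous fun θ : ℝ => θ ^ 0 * g (VV Z (θ * σ))).intervalIntegrable _ _
      have i2 : IntervalIntegrable (fun θ : ℝ => θ ^ 0 * g (VV W (θ * σ))) volume 0 1 := by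
        have h := hVV W
        exact (by fun_prop : Continuous fun θ : ℝ => θ ^ 0 * g (VV W (θ * σ))).intervalIntegrable _ _
      rw [← intervalIntegral.integral_sub i1 i2]
      have := intervalIntegral.norm_integral_le_of_norm_le_const (a := (0:ℝ)) (b := 1)
        (C := L * (Real.exp (K * |σ|) * D))
        (f := fun θ => θ ^ 0 * g (VV Z (θ * σ)) - θ ^ 0 * g (VV W (θ * σ))) (by
          intro θ hθ
          rw [uIoc_of_le zero_le_one] at hθ
          simp only [pow_zero, one_mul]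
          refine (hpt _).trans ?_
          have h5 : |θ * σ| ≤ |σ| := by
            rw [abs_mul, abs_of_pos hθ.1]
            calc θ * |σ| ≤ 1 * |σ| := mul_le_mul_of_nonneg_right hθ.2 (abs_nonneg _)
              _ = |σ| := one_mul _
          gcongr)
      simpa using this
    have hdiff : TT Z ρ - TT W ρ = -(c * Real.exp (-(K * |ρ|)) *
        ∫ σ in (0 : ℝ)..ρ, (Aj 0 (fun τ => g (VV Z τ)) σ - Aj 0 (fun τ => g (VV W τ)) σ)) := by
      rw [intervalIntegral.integral_sub ((hA Z).intervalIntegrable _ _)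
        ((hA W).intervalIntegrable _ _)]
      simp only [TT]
      ring
    rw [hdiff, abs_neg, abs_mul, abs_mul, abs_of_nonneg hc, abs_of_pos (Real.exp_pos _)]
    have hint : |∫ σ in (0 : ℝ)..ρ, (Aj 0 (fun τ => g (VV Z τ)) σ - Aj 0 (fun τ => g (VV W τ)) σ)| ≤
        L * D * (Real.exp (K * |ρ|) / K) := by
      -- bound by the integral of the exponential
      have hb : |∫ σ in (0 : ℝ)..ρ, (Aj 0 (fun τ => g (VV Z τ)) σ - Aj 0 (fun τ => g (VV W τ)) σ)| ≤
          |∫ σ in (0 : ℝ)..ρ, L * (Real.exp (K * |σ|) * D)| := by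
        have := intervalIntegral.norm_integral_le_abs_of_norm_le (μ := volume) (a := (0:ℝ)) (b := ρ)
          (f := fun σ => (Aj 0 (fun τ => g (VV Z τ)) σ - Aj 0 (fun τ => g (VV W τ)) σ))
          (g := fun σ => L * (Real.exp (K * |σ|) * D)) (Eventually.of_forall fun σ => by
            exact hAd σ)
          ((by fun_prop : Continuous fun σ : ℝ => L * (Real.exp (K * |σ|) * D)).intervalIntegrable _ _)
        simpa using this
      refine hb.trans ?_
      have e1 : ∀ r : ℝ, 0 ≤ r → ∫ σ in (0 : ℝ)..r, L * (Real.exp (K * |σ|) * D) =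
          L * D * ((Real.exp (K * r) - 1) / K) := by
        intro r hr
        have : ∫ σ in (0 : ℝ)..r, L * (Real.exp (K * |σ|) * D) =
            ∫ σ in (0 : ℝ)..r, L * D * Real.exp (K * σ) := by
          refine intervalIntegral.integral_congr fun σ hσ => ?_
          rw [uIcc_of_le hr] at hσ
          simp only [abs_of_nonneg hσ.1]
          ring
        rw [this, intervalIntegral.integral_const_mul,
          intervalIntegral.integral_comp_mul_left (fun x => Real.exp x) hK0.ne', integral_exp]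
        simp [div_eq_inv_mul]
      rcases le_total 0 ρ with h | h
      · rw [e1 ρ h, abs_of_nonneg h, abs_of_nonneg]
        · gcongr
          linarith
        · have : 1 ≤ Real.exp (K * ρ) := Real.one_le_exp (by positivity)
          have : 0 ≤ Real.exp (K * ρ) - 1 := by linarith
          positivity
      · have e2 : ∫ σ in (0 : ℝ)..ρ, L * (Real.exp (K * |σ|) * D) =
            - ∫ σ in (0 : ℝ)..(-ρ), L * (Real.exp (K * |σ|) * D) := by
          have h6 := intervalIntegral.integral_comp_neg (a := (0:ℝ)) (b := -ρ)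
            (fun σ : ℝ => L * (Real.exp (K * |σ|) * D))
          simp only [abs_neg, neg_neg, neg_zero] at h6
          rw [h6, intervalIntegral.integral_symm]
        rw [e2, abs_neg, e1 (-ρ) (by linarith), abs_of_nonpos h, abs_of_nonneg]
        · gcongr
          linarith
        · have : 1 ≤ Real.exp (K * -ρ) := Real.one_le_exp (by
            have : 0 ≤ -ρ := by linarith
            positivity)
          have : 0 ≤ Real.exp (K * -ρ) - 1 := by linarith
          positivity
    calc c * Real.exp (-(K * |ρ|)) *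
        |∫ σ in (0 : ℝ)..ρ, (Aj 0 (fun τ => g (VV Z τ)) σ - Aj 0 (fun τ => g (VV W τ)) σ)|
        ≤ c * Real.exp (-(K * |ρ|)) * (L * D * (Real.exp (K * |ρ|) / K)) := by
          gcongr
      _ = (c * L / K) * D * (Real.exp (-(K * |ρ|)) * Real.exp (K * |ρ|)) := by ring
      _ = (c * L / K) * D := by rw [← Real.exp_add]; simp
      _ ≤ (1 / 2) * D := by
          refine mul_le_mul_of_nonneg_right ?_ hD0
          rw [div_le_div_iff₀ hK0 (by norm_num)]
          linarith
      _ = ((1 / 2 : NNReal) : ℝ) * D := by norm_num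
  have hfix := hTcon.fixedPoint_isFixedPt
  set Z := ContractingWith.fixedPoint T hTcon with hZ
  have hfix' : ∀ ρ, Z ρ = TT Z ρ := fun ρ => by
    have := congrArg (fun W : ℝ →ᵇ ℝ => W ρ) hfix
    exact this.symm
  have hmain : ∀ ρ, VV Z ρ = m - c * ∫ σ in (0 : ℝ)..ρ, Aj 0 (fun τ => g (VV Z τ)) σ := by
    intro ρ
    have h1 : VV Z ρ = Real.exp (K * |ρ|) * Z ρ := rfl
    rw [h1, hfix' ρ]
    simp only [TT]
    rw [← mul_assoc, ← Real.exp_add]
    simp
  refine ⟨VV Z, ?_, hVV Z, hmain⟩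
  rw [hmain 0]
  simp

end Pool.Agent.W800.NS
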