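import Pool.Agent.W800.NS.Part2
import Pool.Agent.W800.NS.Nonl

set_option autoImplicit false
open MeasureTheory Filter Topology Set Metric Laplacian InnerProductSpace
open scoped ContDiff

namespace Pool.Agent.W800.NS

open Pool.Agent.H314.Dir Pool.Agent.H314.CS

/-- the smooth part of the Liouville solution -/
noncomputable def WL (k : ℕ) (l : ℝ) (x : Plane) : ℝ :=
  Real.log (8 * (k : ℝ) ^ 2 * l) - 2 * Real.log (1 + l * PP k x)

theorem den_pos {k : ℕ} {l : ℝ} (hl : 0 < l) (x : Plane) : 0 < 1 + l * PP k x := by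
  have := mul_nonneg hl.le (PP_nonneg k x)
  linarith

theorem contDiff_WL {n : WithTop ℕ∞} (k : ℕ) {l : ℝ} (hl : 0 < l) : ContDiff ℝ n (WL k l) := by
  unfold WL
  exact contDiff_const.sub (contDiff_const.mul
    ((contDiff_const.add (contDiff_const.mul (contDiff_PP k))).log fun x => (den_pos hl x).ne'))

theorem laplacian_WL {k : ℕ} (hk : 1 ≤ k) {l : ℝ} (hl : 0 < l) (x : Plane) :
    Δ (WL k l) x = -(8 * (k : ℝ) ^ 2 * l * ‖x‖ ^ (2 * k - 2) / (1 + l * PP k x) ^ 2) := by
  have hD := den_pos (k := k) hl x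
  have e : WL k l = fun x => (fun r => Real.log (8 * (k : ℝ) ^ 2 * l) - 2 * Real.log (1 + l * r)) (PP k x) := rfl
  have hev : ∀ᶠ r in 𝓝 (PP k x), 0 < 1 + l * r :=
    (by fun_prop : Continuous fun r : ℝ => 1 + l * r).continuousAt.eventually (lt_mem_nhds hD)
  have hlin : ∀ r : ℝ, HasDerivAt (fun r : ℝ => 1 + l * r) l r := fun r => by
    simpa using ((hasDerivAt_id r).const_mul l).const_add 1
  have h := laplacian_pull_at hk (V := fun r => Real.log (8 * (k : ℝ) ^ 2 * l) - 2 * Real.log (1 + l * r))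
    (V' := fun r => -(2 * l) / (1 + l * r))
    (V'' := fun r => 2 * l ^ 2 / (1 + l * r) ^ 2) x ?_ ?_ ?_
  · rw [e, h]
    field_simp
    ring
  · filter_upwards [hev] with r hr
    have h1 := (((hlin r).log hr.ne').const_mul 2).const_sub (Real.log (8 * (k : ℝ) ^ 2 * l))
    refine h1.congr_deriv ?_
    ring
  · have h1 := (hasDerivAt_const (PP k x) (-(2 * l))).div (hlin (PP k x)) hD.ne'
    refine h1.congr_deriv ?_
    ring
  · exact (contDiff_WL (n := 2) k hl).contDiffAt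

/-- the full Liouville solution with a point source -/
noncomputable def UL (N : ℝ) (k : ℕ) (l : ℝ) (x : Plane) : ℝ := 2 * N * Real.log ‖x‖ + WL k l x

theorem exp_UL {N : ℝ} {k : ℕ} (hk : 1 ≤ k) {l : ℝ} (hl : 0 < l) {x : Plane} (hx : x ≠ 0) :
    Real.exp (UL N k l x) = ‖x‖ ^ (2 * N) * (8 * (k : ℝ) ^ 2 * l) / (1 + l * PP k x) ^ 2 := by
  have hD := den_pos (k := k) hl x
  have hkp : (0 : ℝ) < k := by exact_mod_cast (by omega : 0 < k)
  have hn : 0 < ‖x‖ := norm_pos_iff.2 hx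
  unfold UL WL
  rw [Real.exp_add, Real.exp_sub, Real.exp_log (by positivity), Real.rpow_def_of_pos hn]
  have : Real.exp (2 * Real.log (1 + l * PP k x)) = (1 + l * PP k x) ^ 2 := by
    rw [two_mul, Real.exp_add, Real.exp_log hD]
    ring
  rw [this]
  have e : 2 * N * Real.log ‖x‖ = Real.log ‖x‖ * (2 * N) := by ring
  rw [e]
  ring

/-- choice of the parameter -/
theorem exists_small {N : ℝ} {k : ℕ} (hN : 0 ≤ N) (hNk : N < k) :
    ∃ l : ℝ, 0 < l ∧ l ≤ 1 ∧ ∀ x : Plane, x ≠ 0 →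
      ‖x‖ ^ (2 * N) * (8 * (k : ℝ) ^ 2 * l) ≤ Real.exp (-1) * (1 + l * PP k x) ^ 2 := by
  have hkp : (0 : ℝ) < k := lt_of_le_of_lt hN hNk
  have hk1 : (1 : ℝ) ≤ k := by
    have : 0 < k := by exact_mod_cast hkp
    exact_mod_cast this
  set θ : ℝ := N / k with hθ
  have hθ0 : 0 ≤ θ := by positivity
  have hθ1 : θ < 1 := by rw [hθ, div_lt_one hkp]; exact hNk
  set b : ℝ := 1 / (100 * (k : ℝ) ^ 2) with hb
  have hb0 : 0 < b := by positivity
  have hb1 : b ≤ 1 := by
    rw [hb, div_le_one (by positivity)]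
    nlinarith
  set l : ℝ := b ^ (1 / (1 - θ)) with hl
  have hl0 : 0 < l := Real.rpow_pos_of_pos hb0 _
  have hl1 : l ≤ 1 := Real.rpow_le_one hb0.le hb1 (by
    have : 0 < 1 - θ := by linarith
    positivity)
  have hlθ : l ^ (1 - θ) = b := by
    rw [hl, ← Real.rpow_mul hb0.le, one_div, inv_mul_cancel₀ (by linarith), Real.rpow_one]
  refine ⟨l, hl0, hl1, fun x hx => ?_⟩
  have hn : 0 < ‖x‖ := norm_pos_iff.2 hx
  have hP := PP_nonneg k x
  -- `|x|^{2k} ≤ 2 + 2 P`
  have hkey : ‖x‖ ^ (2 * k) ≤ 2 + 2 * PP k x := by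
    have e1 : ‖x‖ ^ (2 * k) = Complex.normSq ((cz x) ^ k) := by
      rw [map_pow, normSq_cz, ← pow_mul]
    rw [e1]
    unfold PP
    rw [Complex.normSq_apply, Complex.normSq_apply]
    simp only [Complex.sub_re, Complex.one_re, Complex.sub_im, Complex.one_im]
    nlinarith [sq_nonneg (((cz x) ^ k).re - 2), sq_nonneg (((cz x) ^ k).im)]
  set s : ℝ := l * ‖x‖ ^ (2 * k) with hs
  have hs0 : 0 < s := by positivity
  have hs1 : s ≤ 2 * (1 + l * PP k x) := by
    have : s ≤ l * (2 + 2 * PP k x) := mul_le_mul_of_nonneg_left hkey hl0.le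
    nlinarith
  have hsθ : s ^ θ ≤ 1 + s := by
    rcases le_total s 1 with h | h
    · have := Real.rpow_le_one hs0.le h hθ0
      linarith
    · have := Real.rpow_le_rpow_of_exponent_le h hθ1.le
      rw [Real.rpow_one] at this
      linarith
  have hrew : ‖x‖ ^ (2 * N) * l = b * s ^ θ := by
    rw [← hlθ, hs, Real.mul_rpow hl0.le (by positivity), ← mul_assoc, ← Real.rpow_add hl0]
    have e2 : (‖x‖ ^ (2 * k)) ^ θ = ‖x‖ ^ (2 * N) := by
      rw [← Real.rpow_natCast, ← Real.rpow_mul hn.le]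
      congr 1
      rw [hθ]
      push_cast
      field_simp
    rw [e2]
    have e3 : 1 - θ + θ = 1 := by ring
    rw [e3, Real.rpow_one]
    ring
  have hD : 1 ≤ 1 + l * PP k x := by
    have := mul_nonneg hl0.le hP
    linarith
  have he : (24 : ℝ) / 100 ≤ Real.exp (-1) := by
    rw [Real.exp_neg]
    have h1 := Real.exp_one_lt_d9
    have h2 : (1 : ℝ) / 3 ≤ (Real.exp 1)⁻¹ := by
      rw [← one_div]
      apply one_div_le_one_div_of_le (Real.exp_pos 1)
      linarith
    linarith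
  have hbk : b * (8 * (k : ℝ) ^ 2) = 8 / 100 := by
    rw [hb]
    field_simp
  calc ‖x‖ ^ (2 * N) * (8 * (k : ℝ) ^ 2 * l) = (‖x‖ ^ (2 * N) * l) * (8 * (k : ℝ) ^ 2) := by ring
    _ = (8 / 100) * s ^ θ := by rw [hrew, ← hbk]; ring
    _ ≤ (8 / 100) * (1 + s) := by gcongr
    _ ≤ (8 / 100) * (3 * (1 + l * PP k x)) := by
        gcongr
        linarith
    _ = (24 / 100) * (1 + l * PP k x) := by ring
    _ ≤ Real.exp (-1) * (1 + l * PP k x) ^ 2 := by
        have h1 : (24 / 100) * (1 + l * PP k x) ≤ Real.exp (-1) * (1 + l * PP k x) := by gcongr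
        have h2 : Real.exp (-1) * (1 + l * PP k x) ≤ Real.exp (-1) * (1 + l * PP k x) ^ 2 := by
          gcongr
          nlinarith
        exact h1.trans h2

theorem cz_neg_root {k : ℕ} (hk : 1 ≤ k) : ∃ z : ℂ, z ^ k = -1 ∧ ‖z‖ = 1 := by
  refine ⟨Complex.exp (Real.pi * Complex.I / k), ?_, ?_⟩
  · rw [← Complex.exp_nat_mul]
    have hk0 : (k : ℂ) ≠ 0 := by
      exact_mod_cast (by omega : k ≠ 0)
    have : (k : ℂ) * (Real.pi * Complex.I / k) = Real.pi * Complex.I := by field_simp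
    rw [this, Complex.exp_pi_mul_I]
  · rw [show (Real.pi * Complex.I / k : ℂ) = ((Real.pi / k : ℝ) : ℂ) * Complex.I by push_cast; ring]
    exact Complex.norm_exp_ofReal_mul_I _

theorem norm_ptc (z : ℂ) : ‖ptc z‖ = ‖z‖ := by
  rw [← norm_cz, cz_ptc]

theorem part1 {N : ℝ} {k : ℕ} (hN : 0 ≤ N) (hk : 1 ≤ k) (hNk : N < k) :
    ∃ u : Plane → ℝ, IsNegSol ∞ N (pw (2 * ((k : ℝ) - N) - 2)) qL u ∧ ¬ RadialAbout 0 u := by
  obtain ⟨l, hl0, hl1, hl⟩ := exists_small hN hNk
  have hkp : (0 : ℝ) < k := lt_of_le_of_lt hN hNk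
  have hW : ∀ {n : WithTop ℕ∞}, ContDiff ℝ n (WL k l) := fun {n} => contDiff_WL k hl0
  have hbd : ∀ x : Plane, x ≠ 0 → UL N k l x ≤ -1 := by
    intro x hx
    have h1 := hl x hx
    have h2 := exp_UL (N := N) hk hl0 hx
    rw [← Real.exp_le_exp, h2, div_le_iff₀ (pow_pos (den_pos hl0 x) 2)]
    exact h1
  have hnl : ∀ᵐ x : Plane, pw (2 * ((k : ℝ) - N) - 2) ‖x‖ * qL (Real.exp (UL N k l x)) =
      8 * (k : ℝ) ^ 2 * l * ‖x‖ ^ (2 * k - 2) / (1 + l * PP k x) ^ 2 := by
    filter_upwards [ae_ne_zero] with x hx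
    have hn : 0 < ‖x‖ := norm_pos_iff.2 hx
    have e1 : qL (Real.exp (UL N k l x)) = gOf qL (UL N k l x) := rfl
    rw [e1, gL_exp (hbd x hx), exp_UL hk hl0 hx]
    unfold pw
    have e2 : ‖x‖ ^ (2 * ((k : ℝ) - N) - 2) * ‖x‖ ^ (2 * N) = ‖x‖ ^ (2 * k - 2) := by
      rw [← Real.rpow_add hn, ← Real.rpow_natCast]
      congr 1
      rw [Nat.cast_sub (by omega)]
      push_cast
      ring
    rw [← e2]
    ring
  have hcont : Continuous fun x : Plane =>
      8 * (k : ℝ) ^ 2 * l * ‖x‖ ^ (2 * k - 2) / (1 + l * PP k x) ^ 2 := by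
    refine Continuous.div ?_ ?_ fun x => (pow_pos (den_pos hl0 x) 2).ne'
    · exact continuous_const.mul (continuous_norm.pow _)
    · exact (continuous_const.add (continuous_const.mul (contDiff_PP (n := 0) k).continuous)).pow 2
  refine ⟨UL N k l, ⟨?_, ?_, ?_, ?_, ?_⟩, ?_⟩
  · have h1 : LocallyIntegrable fun x : Plane => 2 * N * Real.log ‖x‖ := by
      have := LL.locInt_log0.smul (2 * N)
      exact this
    exact h1.add ((hW (n := 0)).continuous.locallyIntegrable)
  · unfold UL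
    refine ContDiffOn.add ?_ (hW.contDiffOn)
    refine contDiffOn_const.mul ?_
    intro x hx
    have hx0 : x ≠ 0 := hx
    exact ((contDiffAt_norm ℝ hx0).log (norm_ne_zero_iff.2 hx0)).contDiffWithinAt
  · exact (locallyIntegrable_congr hnl).2 hcont.locallyIntegrable
  · intro φ hφ hφc
    have hφ2 : ContDiff ℝ 2 φ := contDiff_infty.1 hφ 2
    have hΔc := LL.continuous_laplacian hφ2
    have hΔs := LL.hasCompactSupport_laplacian hφ2 hφc
    have i1 : Integrable (fun x : Plane => Real.log ‖x‖ * Δ φ x) := by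
      have := LL.locInt_log0.integrable_smul_right_of_hasCompactSupport hΔc hΔs
      simpa using this
    have i2 : Integrable (fun x : Plane => WL k l x * Δ φ x) :=
      ((hW (n := 0)).continuous.mul hΔc).integrable_of_hasCompactSupport hΔs.mul_left
    have e1 : ∫ x : Plane, UL N k l x * Δ φ x =
        2 * N * (∫ x : Plane, Real.log ‖x‖ * Δ φ x) + ∫ x : Plane, WL k l x * Δ φ x := by
      rw [← integral_const_mul, ← integral_add (i1.const_mul _) i2]
      congr 1
      funext x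
      unfold UL
      ring
    have e2 : ∫ x : Plane, pw (2 * ((k : ℝ) - N) - 2) ‖x‖ * qL (Real.exp (UL N k l x)) * φ x =
        - ∫ x : Plane, Δ (WL k l) x * φ x := by
      rw [← integral_neg]
      refine integral_congr_ae ?_
      filter_upwards [hnl] with x hx
      rw [hx, laplacian_WL hk hl0]
      ring
    rw [e1, e2, LL.integral_log_laplacian hφ2 hφc, LL.green (hW (n := 2)) hφ2 hφc]
    ring
  · intro x hx
    have := hbd x hx
    linarith
  · intro hr
    obtain ⟨z, hz, hz1⟩ := cz_neg_root hk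
    have hn1 : ‖ptc 1‖ = 1 := by rw [norm_ptc]; simp
    have hn2 : ‖ptc z‖ = 1 := by rw [norm_ptc, hz1]
    have h1 : ptc 1 ≠ 0 := by
      rw [← norm_ne_zero_iff, hn1]; norm_num
    have h2 : ptc z ≠ 0 := by
      rw [← norm_ne_zero_iff, hn2]; norm_num
    have h3 := hr (ptc 1) (ptc z) h1 h2 (by rw [sub_zero, sub_zero, hn1, hn2])
    have p1 : PP k (ptc 1) = 0 := by
      rw [PP_eq_zero_iff, cz_ptc, one_pow]
    have p2 : PP k (ptc z) = 4 := by
      unfold PP
      rw [cz_ptc, hz]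
      norm_num [Complex.normSq_apply]
    unfold UL WL at h3
    rw [hn1, hn2, p1, p2] at h3
    simp only [Real.log_one, mul_zero, add_zero, zero_add] at h3
    have h4 : 0 < Real.log (1 + l * 4) := Real.log_pos (by linarith)
    linarith

end Pool.Agent.W800.NS
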