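import Pool.Agent.W800.NS.Ode

set_option autoImplicit false
open MeasureTheory Filter Topology Set Metric
open scoped ContDiff

namespace Pool.Agent.W800.NS

theorem Aj_identity {G : ℝ → ℝ} (hG : ContDiff ℝ 1 G) (σ : ℝ) :
    Aj 0 G σ + σ * Aj 1 (deriv G) σ = G σ := by
  have hG' : Continuous (deriv G) := hG.continuous_deriv (by norm_num)
  have hGc : Continuous G := hG.continuous
  unfold Aj
  rw [← intervalIntegral.integral_const_mul, ← intervalIntegral.integral_add
    ((by fun_prop : Continuous fun θ : ℝ => θ ^ 0 * G (θ * σ)).intervalIntegrable _ _)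
    ((by fun_prop : Continuous fun θ : ℝ => σ * (θ ^ 1 * deriv G (θ * σ))).intervalIntegrable _ _)]
  have h : ∀ θ ∈ uIcc (0 : ℝ) 1, HasDerivAt (fun θ : ℝ => θ * G (θ * σ))
      (θ ^ 0 * G (θ * σ) + σ * (θ ^ 1 * deriv G (θ * σ))) θ := by
    intro θ _
    have h1 : HasDerivAt G (deriv G (θ * σ)) (θ * σ) :=
      (hG.differentiable (by norm_num) _).hasDerivAt
    have h2 : HasDerivAt (fun θ => θ * σ) σ θ := by
      simpa using (hasDerivAt_id θ).mul_const σ
    have h3 := (hasDerivAt_id θ).mul (h1.comp θ h2)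
    refine h3.congr_deriv ?_
    simp
    ring
  rw [intervalIntegral.integral_eq_sub_of_hasDerivAt h
    ((by fun_prop : Continuous fun θ : ℝ => θ ^ 0 * G (θ * σ) + σ * (θ ^ 1 * deriv G (θ * σ))).intervalIntegrable _ _)]
  simp

/-- Radial solutions in the variable `ρ = |w|²` -/
theorem radial_exists {g : ℝ → ℝ} (hg : ContDiff ℝ 1 g) {C : ℝ}
    (hC : ∀ u, |g u| + |deriv g u| ≤ C) (hpos : ∀ u < 0, 0 < g u) {c : ℝ} (hc : 0 < c) {m : ℝ}
    (hm : m < 0) :
    ∃ V V' V'' : ℝ → ℝ, V 0 = m ∧ (∀ ρ, HasDerivAt V (V' ρ) ρ) ∧ (∀ ρ, HasDerivAt V' (V'' ρ) ρ) ∧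
      Continuous V'' ∧ (∀ ρ, V' ρ + ρ * V'' ρ = -c * g (V ρ)) ∧
      (∀ ρ, 0 ≤ ρ → V ρ ≤ m) ∧ (∀ ρ, 0 < ρ → V ρ < m) ∧
      (ContDiff ℝ ∞ g → ContDiff ℝ ∞ V) := by
  have hgc : Continuous g := hg.continuous
  have hC1 : ∀ u, |g u| ≤ C := fun u => by
    have := hC u
    have := abs_nonneg (deriv g u)
    linarith
  have hC2 : ∀ u, |deriv g u| ≤ C := fun u => by
    have := hC u
    have := abs_nonneg (g u)
    linarith
  have hL : ∀ u v, |g u - g v| ≤ C * |u - v| := by
    intro u v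
    have := Convex.norm_image_sub_le_of_norm_deriv_le (f := g) (C := C) (s := univ) (x := v) (y := u)
      (fun x _ => hg.differentiable (by norm_num) x) (fun x _ => hC2 x) convex_univ
      (mem_univ _) (mem_univ _)
    simpa using this
  obtain ⟨V, hV0, hVc, hV⟩ := ode_exists hgc hC1 hL hc.le m
  have hGc : Continuous fun τ => g (V τ) := hgc.comp hVc
  have hAc : Continuous (Aj 0 fun τ => g (V τ)) := continuous_Aj 0 hGc
  have hV1 : ∀ ρ, HasDerivAt V (-c * Aj 0 (fun τ => g (V τ)) ρ) ρ := by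
    intro ρ
    have h1 : HasDerivAt (fun ρ : ℝ => ∫ σ in (0 : ℝ)..ρ, Aj 0 (fun τ => g (V τ)) σ)
        (Aj 0 (fun τ => g (V τ)) ρ) ρ :=
      intervalIntegral.integral_hasDerivAt_right (hAc.intervalIntegrable _ _)
        (hAc.stronglyMeasurableAtFilter _ _) hAc.continuousAt
    have h2 := (h1.const_mul c).const_sub m
    have e : V = fun ρ => m - c * ∫ σ in (0 : ℝ)..ρ, Aj 0 (fun τ => g (V τ)) σ := funext hV
    rw [← e] at h2
    refine h2.congr_deriv ?_
    ring
  have hVd : deriv V = fun ρ => -c * Aj 0 (fun τ => g (V τ)) ρ := funext fun ρ => (hV1 ρ).deriv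
  have hVC1 : ContDiff ℝ 1 V := by
    rw [contDiff_one_iff_deriv]
    refine ⟨fun r => (hV1 r).differentiableAt, ?_⟩
    rw [hVd]
    fun_prop
  have hG1 : ContDiff ℝ 1 fun τ => g (V τ) := hg.comp hVC1
  have hV2 : ∀ ρ, HasDerivAt (fun ρ => -c * Aj 0 (fun τ => g (V τ)) ρ)
      (-c * Aj 1 (deriv fun τ => g (V τ)) ρ) ρ := fun ρ => (hasDerivAt_Aj 0 hG1 ρ).const_mul (-c)
  -- sign
  have hneg : ∀ ρ, 0 ≤ ρ → V ρ < 0 := by
    by_contra hcon
    push Not at hcon
    set S : Set ℝ := {ρ | 0 ≤ ρ ∧ 0 ≤ V ρ} with hS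
    have hSne : S.Nonempty := hcon
    have hScl : IsClosed S := (isClosed_le continuous_const continuous_id).inter
      (isClosed_le continuous_const hVc)
    have hSb : BddBelow S := ⟨0, fun x hx => hx.1⟩
    have hmem := hScl.csInf_mem hSne hSb
    set r := sInf S with hr
    have hlt : ∀ σ, 0 ≤ σ → σ < r → V σ < 0 := by
      intro σ h0 hσ
      by_contra h
      exact absurd (csInf_le hSb (show σ ∈ S from ⟨h0, not_lt.1 h⟩)) (not_le.2 hσ)
    have hA : ∀ σ ∈ Icc 0 r, 0 ≤ Aj 0 (fun τ => g (V τ)) σ := by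
      intro σ hσ
      unfold Aj
      have h0 : ∀ θ ∈ Ioo (0 : ℝ) 1, 0 ≤ θ ^ 0 * g (V (θ * σ)) := by
        intro θ hθ
        rw [pow_zero, one_mul]
        rcases hσ.1.eq_or_lt with h | h
        · rw [← h, mul_zero, hV0]
          exact (hpos m hm).le
        · have h2 : θ * σ < r := by
            calc θ * σ < 1 * σ := mul_lt_mul_of_pos_right hθ.2 h
              _ ≤ r := by rw [one_mul]; exact hσ.2
          exact (hpos _ (hlt _ (mul_nonneg hθ.1.le hσ.1) h2)).le
      rw [intervalIntegral.integral_of_le zero_le_one, integral_Ioc_eq_integral_Ioo]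
      exact setIntegral_nonneg measurableSet_Ioo h0
    have h1 : 0 ≤ ∫ σ in (0 : ℝ)..r, Aj 0 (fun τ => g (V τ)) σ :=
      intervalIntegral.integral_nonneg hmem.1 hA
    have h2 := hV r
    have h3 := hmem.2
    have h4 := mul_nonneg hc.le h1
    linarith
  have hApos : ∀ σ, 0 ≤ σ → 0 < Aj 0 (fun τ => g (V τ)) σ := by
    intro σ hσ
    unfold Aj
    refine intervalIntegral.intervalIntegral_pos_of_pos_on
      ((by fun_prop : Continuous fun θ : ℝ => θ ^ 0 * g (V (θ * σ))).intervalIntegrable _ _) ?_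
      zero_lt_one
    intro θ hθ
    rw [pow_zero, one_mul]
    exact hpos _ (hneg _ (mul_nonneg hθ.1.le hσ))
  have hlt : ∀ ρ, 0 < ρ → V ρ < m := by
    intro ρ hρ
    rw [hV ρ]
    have : 0 < ∫ σ in (0 : ℝ)..ρ, Aj 0 (fun τ => g (V τ)) σ := by
      refine intervalIntegral.intervalIntegral_pos_of_pos_on (hAc.intervalIntegrable _ _) ?_ hρ
      intro x hx
      exact hApos x hx.1.le
    have := mul_pos hc this
    linarith
  refine ⟨V, _, _, hV0, hV1, hV2, ?_, ?_, ?_, hlt, ?_⟩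
  · exact (continuous_Aj 1 (hG1.continuous_deriv (by norm_num))).const_mul _ |>.congr fun _ => rfl
  · intro ρ
    have := Aj_identity hG1 ρ
    linear_combination (-c) * this
  · intro ρ hρ
    rcases hρ.eq_or_lt with h | h
    · rw [← h, hV0]
    · exact (hlt ρ h).le
  · intro hinf
    rw [contDiff_infty]
    intro n
    induction n with
    | zero => simpa using hVc
    | succ n ih =>
      push_cast
      rw [contDiff_succ_iff_deriv]
      refine ⟨fun r => (hV1 r).differentiableAt, by simp, ?_⟩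
      rw [hVd]
      exact contDiff_const.mul (contDiff_Aj n 0 _ ((hinf.of_le (by exact_mod_cast le_top)).comp ih))

end Pool.Agent.W800.NS
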