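import Pool.Agent.W800.NS.Pull
import Pool.Agent.W800.NS.Rad
import Pool.Agent.W800.NS.Defs

set_option autoImplicit false
open MeasureTheory Filter Topology Set Metric Laplacian InnerProductSpace
open scoped ContDiff

namespace Pool.Agent.W800.NS

open Pool.Agent.H314.Dir Pool.Agent.H314.CS

/-- point of the plane with given complex coordinate -/
noncomputable def ptc (z : ℂ) : Plane := !₂[z.re, z.im]

theorem cz_ptc (z : ℂ) : cz (ptc z) = z := by
  apply Complex.ext <;> simp [cz, ptc]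

theorem ptc_injective : Function.Injective ptc := fun z w h => by
  have := congrArg cz h
  rwa [cz_ptc, cz_ptc] at this

theorem ptc_cz (x : Plane) : ptc (cz x) = x := by
  ext i
  fin_cases i <;> simp [cz, ptc]

theorem cz_injective : Function.Injective (cz : Plane → ℂ) := fun x y h => by
  have := congrArg ptc h
  rwa [ptc_cz, ptc_cz] at this

theorem PP_eq_zero_iff {k : ℕ} {x : Plane} : PP k x = 0 ↔ (cz x) ^ k = 1 := by
  unfold PP
  rw [Complex.normSq_eq_zero, sub_eq_zero]

theorem finite_roots {k : ℕ} (hk : 1 ≤ k) : {x : Plane | (cz x) ^ k = 1}.Finite := by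
  have h1 : {z : ℂ | z ^ k = 1}.Finite := by
    refine (Multiset.finite_toSet (Polynomial.nthRoots k (1 : ℂ))).subset fun z hz => ?_
    exact (Polynomial.mem_nthRoots (by omega)).2 hz
  exact h1.preimage (cz_injective.injOn)

theorem sphere_infinite {c x : Plane} (h : x ≠ c) : (Metric.sphere c ‖x - c‖).Infinite := by
  have h1 : IsPreconnected (Metric.sphere c ‖x - c‖) := by
    apply isPreconnected_sphere
    apply Module.one_lt_rank_of_one_lt_finrank
    rw [finrank_euclideanSpace_fin]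
    norm_num
  refine h1.infinite_of_nontrivial ⟨x, by simp, c - (x - c), ?_, ?_⟩
  · rw [mem_sphere, dist_eq_norm, sub_sub_cancel_left, norm_neg]
  · intro he
    apply h
    have h2 : (2 : ℝ) • (x - c) = 0 := by
      rw [two_smul]
      nth_rewrite 1 [he]
      abel
    have h3 := (smul_eq_zero.1 h2).resolve_left (by norm_num)
    exact sub_eq_zero.1 h3

theorem exists_root_ne {k : ℕ} (hk : 2 ≤ k) (c : Plane) : ∃ x : Plane, (cz x) ^ k = 1 ∧ x ≠ c := by
  have hz : IsPrimitiveRoot (Complex.exp (2 * Real.pi * Complex.I / k)) k :=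
    Complex.isPrimitiveRoot_exp k (by omega)
  have h1 : Complex.exp (2 * Real.pi * Complex.I / k) ≠ 1 := hz.ne_one (by omega)
  by_cases h : ptc 1 = c
  · refine ⟨ptc (Complex.exp (2 * Real.pi * Complex.I / k)), ?_, ?_⟩
    · rw [cz_ptc]
      exact hz.pow_eq_one
    · rw [← h]
      exact fun h' => h1 (ptc_injective h')
  · refine ⟨ptc 1, ?_, h⟩
    rw [cz_ptc]
    simp

theorem pw_norm {k : ℕ} (hk : 1 ≤ k) {x : Plane} (_hx : x ≠ 0) :
    pw (2 * ((k : ℝ) - 1)) ‖x‖ = ‖x‖ ^ (2 * k - 2) := by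
  unfold pw
  rw [← Real.rpow_natCast]
  congr 1
  have : ((2 * k - 2 : ℕ) : ℝ) = 2 * (k : ℝ) - 2 := by
    rw [Nat.cast_sub (by omega)]
    push_cast
    ring
  rw [this]
  ring

theorem ae_ne_zero : ∀ᵐ x : Plane, x ≠ 0 := by
  rw [ae_iff]; simp

theorem part2 {k : ℕ} (hk : 2 ≤ k) {q : ℝ → ℝ} (hg : ContDiff ℝ 1 (gOf q)) {C : ℝ}
    (hC : ∀ u, |gOf q u| + |deriv (gOf q) u| ≤ C) (hpos : ∀ u < 0, 0 < gOf q u)
    {m : ℝ} (hm : m < 0) :
    ∃ u : Plane → ℝ, ContDiff ℝ 2 u ∧ (ContDiff ℝ ∞ (gOf q) → ContDiff ℝ ∞ u) ∧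
      IsNegSol 2 0 (pw (2 * ((k : ℝ) - 1))) q u ∧ (∀ x, u x ≤ m) ∧
      (∀ x, u x = m ↔ (cz x) ^ k = 1) := by
  have hkp : (0 : ℝ) < k := by
    have : 0 < k := by omega
    exact_mod_cast this
  obtain ⟨V, V', V'', hV0, h1, h2, h3, h4, h5, h6, h7⟩ :=
    radial_exists hg hC hpos (c := 1 / (4 * (k : ℝ) ^ 2)) (by positivity) hm
  have hVC : ContDiff ℝ 2 V := by
    have e1 : deriv V = V' := funext fun r => (h1 r).deriv
    have e2 : deriv V' = V'' := funext fun r => (h2 r).deriv
    rw [show (2 : WithTop ℕ∞) = 1 + 1 by norm_num, contDiff_succ_iff_deriv]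
    refine ⟨fun r => (h1 r).differentiableAt, by simp, ?_⟩
    rw [e1, contDiff_one_iff_deriv]
    exact ⟨fun r => (h2 r).differentiableAt, by rw [e2]; exact h3⟩
  have hu : ContDiff ℝ 2 (fun x : Plane => V (PP k x)) := hVC.comp (contDiff_PP (n := 2) k)
  have hlap : ∀ x : Plane, Δ (fun x : Plane => V (PP k x)) x =
      -(‖x‖ ^ (2 * k - 2) * gOf q (V (PP k x))) := by
    intro x
    rw [laplacian_pull_at (by omega) x (Eventually.of_forall h1) (h2 _) hu.contDiffAt, h4]
    field_simp
  refine ⟨fun x => V (PP k x), hu, fun hinf => (h7 hinf).comp (contDiff_PP k), ?_, ?_, ?_⟩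
  · have hnl : ∀ᵐ x : Plane, pw (2 * ((k : ℝ) - 1)) ‖x‖ * q (Real.exp (V (PP k x))) =
        ‖x‖ ^ (2 * k - 2) * gOf q (V (PP k x)) := by
      filter_upwards [ae_ne_zero] with x hx
      rw [pw_norm (by omega) hx]
      rfl
    have hcont : Continuous fun x : Plane => ‖x‖ ^ (2 * k - 2) * gOf q (V (PP k x)) :=
      (continuous_norm.pow _).mul (hg.continuous.comp hu.continuous)
    refine ⟨hu.continuous.locallyIntegrable, hu.contDiffOn, ?_, ?_, ?_⟩
    · exact (locallyIntegrable_congr hnl).2 hcont.locallyIntegrable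
    · intro φ hφ hφc
      have hφ2 : ContDiff ℝ 2 φ := contDiff_infty.1 hφ 2
      rw [LL.green hu hφ2 hφc]
      have e1 : ∫ x : Plane, pw (2 * ((k : ℝ) - 1)) ‖x‖ * q (Real.exp (V (PP k x))) * φ x =
          ∫ x : Plane, ‖x‖ ^ (2 * k - 2) * gOf q (V (PP k x)) * φ x := by
        refine integral_congr_ae ?_
        filter_upwards [hnl] with x hx
        rw [hx]
      rw [e1]
      have e2 : ∫ x : Plane, Δ (fun x : Plane => V (PP k x)) x * φ x =
          - ∫ x : Plane, ‖x‖ ^ (2 * k - 2) * gOf q (V (PP k x)) * φ x := by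
        rw [← integral_neg]
        congr 1
        funext x
        rw [hlap x]
        ring
      rw [e2]
      simp
    · intro x _
      exact lt_of_le_of_lt (h5 _ (PP_nonneg k x)) hm
  · intro x
    exact h5 _ (PP_nonneg k x)
  · intro x
    rw [← PP_eq_zero_iff]
    constructor
    · intro h
      by_contra hne
      have : 0 < PP k x := lt_of_le_of_ne (PP_nonneg k x) (Ne.symm hne)
      exact absurd h (h6 _ this).ne
    · intro h
      show V (PP k x) = m
      rw [h, hV0]

/-- not radial about any point -/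
theorem not_radial_of_roots {k : ℕ} (hk : 2 ≤ k) {u : Plane → ℝ} {m : ℝ}
    (h : ∀ x, u x = m ↔ (cz x) ^ k = 1) (c : Plane) : ¬ RadialAbout c u := by
  intro hr
  obtain ⟨x, hx, hxc⟩ := exists_root_ne hk c
  have hx0 : x ≠ 0 := by
    rintro rfl
    have : cz (0 : Plane) = 0 := by apply Complex.ext <;> simp [cz]
    rw [this, zero_pow (by omega)] at hx
    exact zero_ne_one hx
  refine sphere_infinite hxc (((finite_roots (k := k) (by omega)).union (finite_singleton 0)).subset ?_)
  intro y hy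
  by_cases hy0 : y = 0
  · exact Or.inr hy0
  · left
    show (cz y) ^ k = 1
    rw [← h y]
    rw [hr y x hy0 hx0 (by
      rw [mem_sphere, dist_eq_norm] at hy
      exact hy)]
    exact (h x).2 hx

end Pool.Agent.W800.NS
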