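import Pool.Agent.H314.CS.Dist
import Pool.Agent.H314.CS.Holo

set_option autoImplicit false
open MeasureTheory Filter Topology Set Metric Laplacian InnerProductSpace
open scoped ContDiff

namespace Pool.Agent.W800.NS

open Pool.Agent.H314.Dir Pool.Agent.H314.CS

/-- `|z^k - 1|²`, `z = x₀ + i x₁` -/
noncomputable def PP (k : ℕ) (x : EuclideanSpace ℝ (Fin 2)) : ℝ :=
  Complex.normSq ((cz x) ^ k - 1)

theorem lap_eq_laplacian (f : Eu 2 → ℝ) (x : Eu 2) : Δ f x = lap f x := by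
  rw [laplacian_eq_iteratedFDeriv_orthonormalBasis f (EuclideanSpace.basisFun (Fin 2) ℝ)]
  unfold lap
  refine Finset.sum_congr rfl fun i _ => ?_
  congr 1
  funext j
  fin_cases j <;> simp [EuclideanSpace.basisFun_apply]

theorem contDiff_cz {n : WithTop ℕ∞} : ContDiff ℝ n (fun x : Eu 2 => cz x) := by
  have h0 : ∀ i : Fin 2, ContDiff ℝ n (fun x : Eu 2 => x i) := fun i =>
    (EuclideanSpace.proj (𝕜 := ℝ) i : Eu 2 →L[ℝ] ℝ).contDiff
  have e : (fun x : Eu 2 => cz x) = fun x : Eu 2 => Complex.ofRealCLM (x 0) + Complex.ofRealCLM (x 1) * Complex.I := by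
    funext x
    apply Complex.ext <;> simp [cz]
  rw [e]
  exact (Complex.ofRealCLM.contDiff.comp (h0 0)).add
    ((Complex.ofRealCLM.contDiff.comp (h0 1)).mul contDiff_const)

theorem contDiff_PP {n : WithTop ℕ∞} (k : ℕ) : ContDiff ℝ n (PP k) := by
  have h1 : ContDiff ℝ n (fun x : Eu 2 => (cz x) ^ k - 1) := (contDiff_cz.pow k).sub contDiff_const
  have hre : ContDiff ℝ n (fun x : Eu 2 => ((cz x) ^ k - 1).re) := Complex.reCLM.contDiff.comp h1
  have him : ContDiff ℝ n (fun x : Eu 2 => ((cz x) ^ k - 1).im) := Complex.imCLM.contDiff.comp h1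
  have e : PP k = fun x : Eu 2 => ((cz x) ^ k - 1).re * ((cz x) ^ k - 1).re +
      ((cz x) ^ k - 1).im * ((cz x) ^ k - 1).im := by
    funext x
    rw [PP, Complex.normSq_apply]
  rw [e]
  exact (hre.mul hre).add (him.mul him)

theorem normSq_cz (x : Eu 2) : Complex.normSq (cz x) = ‖x‖ ^ 2 := by
  rw [EuclideanSpace.real_norm_sq_eq, Fin.sum_univ_two, Complex.normSq_apply, cz]
  ring

theorem norm_cz (x : Eu 2) : ‖cz x‖ = ‖x‖ := by
  have h := normSq_cz x
  rw [Complex.normSq_eq_norm_sq] at h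
  exact (sq_eq_sq₀ (norm_nonneg _) (norm_nonneg _)).1 h

theorem PP_nonneg (k : ℕ) (x : Eu 2) : 0 ≤ PP k x := Complex.normSq_nonneg _

/-- Laplacian of `V (|z^k - 1|²)` -/
theorem laplacian_pull_at {k : ℕ} (hk : 1 ≤ k) {V V' V'' : ℝ → ℝ} (x : Eu 2)
    (h1 : ∀ᶠ r in 𝓝 (PP k x), HasDerivAt V (V' r) r)
    (h2 : HasDerivAt V' (V'' (PP k x)) (PP k x))
    (hC : ContDiffAt ℝ 2 (fun y : Eu 2 => V (PP k y)) x) :
    Δ (fun y : Eu 2 => V (PP k y)) x =
      4 * (k : ℝ) ^ 2 * ‖x‖ ^ (2 * k - 2) * (V' (PP k x) + PP k x * V'' (PP k x)) := by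
  have hF : ∀ z : ℂ, HasDerivAt (fun z : ℂ => z ^ k - 1) ((fun z : ℂ => (k : ℂ) * z ^ (k - 1)) z) z := by
    intro z
    have := (hasDerivAt_pow k z).sub_const 1
    simpa using this
  have hF' : ∀ z : ℂ, HasDerivAt (fun z : ℂ => (k : ℂ) * z ^ (k - 1))
      ((fun z : ℂ => (k : ℂ) * (((k - 1 : ℕ) : ℂ) * z ^ (k - 1 - 1))) z) z := by
    intro z
    exact (hasDerivAt_pow (k - 1) z).const_mul (k : ℂ)
  have h := lap_holo hF hF' (g := V) (g' := V') (g'' := V'') x h1 h2 hC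
  rw [lap_eq_laplacian]
  have e1 : (fun y : Eu 2 => V (PP k y)) =
      fun y : Eu 2 => V (Complex.normSq ((cz y) ^ k - 1)) := rfl
  rw [e1, h]
  have e2 : Complex.normSq ((k : ℂ) * cz x ^ (k - 1)) = (k : ℝ) ^ 2 * ‖x‖ ^ (2 * k - 2) := by
    rw [map_mul, map_pow, normSq_cz, ← pow_mul]
    have : 2 * (k - 1) = 2 * k - 2 := by omega
    rw [this]
    congr 1
    simp [Complex.normSq_apply]
    ring
  have e4 : Complex.normSq ((cz x) ^ k - 1) = PP k x := rfl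
  simp only [e4]
  rw [e2]
  ring

end Pool.Agent.W800.NS
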